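import Pool.Agent.K4W.StmtsF
import Pool.Agent.Helper69_Weyl.Dim

/-! K4W, row FIN: the final theorem from the parts A and B. -/

set_option autoImplicit false

namespace Pool.Agent.K4W.H34

open Pool.Agent.Helper69_Weyl (ee W)

lemma root_ex (K N : ℕ) (hK : 1 ≤ K) (hN : 1 ≤ N) :
    ∃ Z : ℕ, 1 ≤ Z ∧ Z ^ K ≤ N ∧ N < (Z + 1) ^ K := by
  classical
  have h1 : (fun z : ℕ => z ^ K ≤ N) 1 := by
    show 1 ^ K ≤ N
    rw [one_pow]
    exact hN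
  refine ⟨Nat.findGreatest (fun z => z ^ K ≤ N) N, ?_, ?_, ?_⟩
  · exact Nat.le_findGreatest hN h1
  · exact Nat.findGreatest_spec (P := fun z => z ^ K ≤ N) hN h1
  · by_contra hcon
    push Not at hcon
    have h2 : Nat.findGreatest (fun z => z ^ K ≤ N) N + 1 ≤ N :=
      (Nat.le_self_pow (by omega) _).trans hcon
    have h3 := Nat.le_findGreatest (P := fun z => z ^ K ≤ N) h2 hcon
    omega

lemma root_large (K Zm Z N : ℕ) (h : (Zm + 1) ^ K ≤ N) (h' : N < (Z + 1) ^ K) : Zm < Z := by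
  by_contra hcon
  push Not at hcon
  have h1 : (Z + 1) ^ K ≤ (Zm + 1) ^ K := Nat.pow_le_pow_left (by omega) K
  omega

lemma bern (K Z : ℕ) (hZ : 2 * K ≤ Z) : ((Z : ℝ) + 1) ^ K ≤ 2 * (Z : ℝ) ^ K := by
  have hZ0 : (0 : ℝ) ≤ (Z : ℝ) := Nat.cast_nonneg Z
  have hZ1 : (0 : ℝ) < (Z : ℝ) + 1 := by linarith
  have h1 := one_add_mul_le_pow (a := -(1 / ((Z : ℝ) + 1))) (by
    have : 1 / ((Z : ℝ) + 1) ≤ 1 := by
      rw [div_le_one hZ1]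
      linarith
    linarith) K
  have h2 : (K : ℝ) * (1 / ((Z : ℝ) + 1)) ≤ 1 / 2 := by
    rw [mul_one_div, div_le_div_iff₀ hZ1 (by norm_num)]
    have : (2 : ℝ) * (K : ℝ) ≤ (Z : ℝ) := by exact_mod_cast hZ
    linarith
  have h3 : 1 + -(1 / ((Z : ℝ) + 1)) = (Z : ℝ) / ((Z : ℝ) + 1) := by
    field_simp
    ring
  rw [h3, div_pow] at h1
  have h4 : (1 : ℝ) / 2 ≤ (Z : ℝ) ^ K / ((Z : ℝ) + 1) ^ K := by linarith
  have h5 : (0 : ℝ) < ((Z : ℝ) + 1) ^ K := pow_pos hZ1 K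
  rw [div_le_div_iff₀ (by norm_num) h5] at h4
  linarith

lemma zpw (Z : ℝ) (hZ : 0 ≤ Z) (a b : ℕ) (e : ℝ) (h : (a : ℝ) * e = (b : ℝ)) :
    (Z ^ a) ^ e = Z ^ b := by
  rw [← Real.rpow_natCast Z a, ← Real.rpow_mul hZ, h, Real.rpow_natCast]

lemma q_le (N q u : ℕ) (a b : ℤ) (t P : ℝ) (hq : 1 ≤ q) (hu : 1 ≤ u) (hqN : q ≤ N)
    (hP : 2 * (N : ℝ) ≤ P) (haq : Int.gcd a (q : ℤ) = 1)
    (h1 : |t - (a : ℝ) / (q : ℝ)| ≤ 1 / (q : ℝ) ^ 2)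
    (h2 : |t - (b : ℝ) / (u : ℝ)| ≤ 1 / ((u : ℝ) * P)) : q ≤ 2 * u := by
  have hq0 : (0 : ℝ) < (q : ℝ) := by exact_mod_cast hq
  have hu0 : (0 : ℝ) < (u : ℝ) := by exact_mod_cast hu
  have hqN' : (q : ℝ) ≤ (N : ℝ) := by exact_mod_cast hqN
  have hP0 : (0 : ℝ) < P := by linarith
  by_cases he : a * (u : ℤ) = b * (q : ℤ)
  · have h3 : (q : ℤ) ∣ a * (u : ℤ) := ⟨b, by rw [he]; ring⟩
    have h4 : (q : ℤ) ∣ (u : ℤ) :=
      Int.dvd_of_dvd_mul_right_of_gcd_one h3 (by rw [Int.gcd_comm]; exact haq)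
    have h5 : q ∣ u := Int.natCast_dvd_natCast.1 h4
    have h6 := Nat.le_of_dvd (by omega) h5
    omega
  · by_contra hcon
    push Not at hcon
    have hcon' : 2 * (u : ℝ) < (q : ℝ) := by exact_mod_cast hcon
    have h3 : (1 : ℝ) ≤ |(a : ℝ) * (u : ℝ) - (b : ℝ) * (q : ℝ)| := by
      have h4 : a * (u : ℤ) - b * (q : ℤ) ≠ 0 := sub_ne_zero.2 he
      have h5 := Int.one_le_abs h4
      have h6 : ((1 : ℤ) : ℝ) ≤ ((|a * (u : ℤ) - b * (q : ℤ)| : ℤ) : ℝ) := by exact_mod_cast h5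
      rw [Int.cast_abs] at h6
      push_cast at h6
      exact h6
    have h4 : |(a : ℝ) / (q : ℝ) - (b : ℝ) / (u : ℝ)| ≤ 1 / (q : ℝ) ^ 2 + 1 / ((u : ℝ) * P) := by
      have h5 : (a : ℝ) / (q : ℝ) - (b : ℝ) / (u : ℝ)
          = -(t - (a : ℝ) / (q : ℝ)) + (t - (b : ℝ) / (u : ℝ)) := by ring
      rw [h5]
      refine (abs_add_le _ _).trans ?_
      rw [abs_neg]
      linarith
    have h5 : (a : ℝ) / (q : ℝ) - (b : ℝ) / (u : ℝ)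
        = ((a : ℝ) * (u : ℝ) - (b : ℝ) * (q : ℝ)) / ((q : ℝ) * (u : ℝ)) := by
      field_simp
    have hqu : (0 : ℝ) < (q : ℝ) * (u : ℝ) := mul_pos hq0 hu0
    rw [h5, abs_div, abs_of_pos hqu, div_le_iff₀ hqu] at h4
    have h6 : (1 / (q : ℝ) ^ 2 + 1 / ((u : ℝ) * P)) * ((q : ℝ) * (u : ℝ))
        = (u : ℝ) / (q : ℝ) + (q : ℝ) / P := by
      field_simp
    rw [h6] at h4
    have h7 : (u : ℝ) / (q : ℝ) < 1 / 2 := by
      rw [div_lt_div_iff₀ hq0 (by norm_num)]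
      linarith
    have h8 : (q : ℝ) / P ≤ 1 / 2 := by
      rw [div_le_div_iff₀ hP0 (by norm_num)]
      linarith
    linarith

lemma quarter (q u : ℕ) (hq : 1 ≤ q) (hu : 1 ≤ u) (h : q ≤ 2 * u) :
    (u : ℝ) ^ (-(1 / 4) : ℝ) ≤ 2 * (1 / (q : ℝ)) ^ ((1 / 4) : ℝ) := by
  have hq0 : (0 : ℝ) < (q : ℝ) := by exact_mod_cast hq
  have hu0 : (0 : ℝ) < (u : ℝ) := by exact_mod_cast hu
  have h1 : (q : ℝ) / 2 ≤ (u : ℝ) := by
    have : (q : ℝ) ≤ 2 * (u : ℝ) := by exact_mod_cast h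
    linarith
  have h2 : (u : ℝ) ^ (-(1 / 4) : ℝ) ≤ ((q : ℝ) / 2) ^ (-(1 / 4) : ℝ) :=
    Real.rpow_le_rpow_of_nonpos (by positivity) h1 (by norm_num)
  refine h2.trans ?_
  have h3 : ((q : ℝ) / 2) ^ (-(1 / 4) : ℝ) = (2 : ℝ) ^ ((1 / 4) : ℝ) * (1 / (q : ℝ)) ^ ((1 / 4) : ℝ) := by
    rw [Real.rpow_neg (by positivity), ← Real.inv_rpow (by positivity),
      ← Real.mul_rpow (by norm_num) (by positivity)]
    congr 1
    field_simp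
  rw [h3]
  refine mul_le_mul_of_nonneg_right ?_ (by positivity)
  calc (2 : ℝ) ^ ((1 / 4) : ℝ) ≤ (2 : ℝ) ^ (1 : ℝ) :=
        Real.rpow_le_rpow_of_exponent_le (by norm_num) (by norm_num)
    _ = 2 := Real.rpow_one 2

theorem core (K a1 P0 a2 M c1 hP b1 b2 : ℕ) (hK : 1 ≤ K)
    (hM : (K : ℝ) * (7 / 8 - 1 / 4000) = (M : ℝ)) (ha1 : (a1 : ℝ) * (1 / 2) = (c1 : ℝ))
    (hc1 : c1 ≤ M) (hP0 : (P0 : ℝ) * (1 / 2) = (hP : ℝ)) (hcP : K * 2 = c1 + hP)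
    (hPa : P0 ≤ a2) (hKP : K + 1 ≤ P0) (haK : a1 ≤ K * 2) (hb : b1 ≤ M * 4 + b2)
    (hA : PartA)
    (hB : ∃ Z₀ : ℕ, ∀ Z : ℕ, Z₀ ≤ Z → ∀ (N Q : ℕ) (a : ℤ) (t ξ : ℝ),
      Z ^ K ≤ N → N ≤ 2 * Z ^ K → Z ^ a1 ≤ Q → Q ≤ Z ^ a2 →
      Int.gcd a (Q : ℤ) = 1 → |t - (a : ℝ) / (Q : ℝ)| ≤ 1 / (Q : ℝ) ^ 2 →
      ‖W 4 N t ξ‖ ^ 4 * (Z : ℝ) ^ b2 ≤ (Z : ℝ) ^ b1) : FinStmt := by
  intro ε hε
  obtain ⟨Z₀, hB⟩ := hB
  obtain ⟨CA, hCA, hA⟩ := hA (ε / 3) (by linarith)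
  -- the bound for small N
  obtain ⟨Zm, hZm⟩ : ∃ Zm : ℕ, Zm = Z₀ + 2 * K + 4 := ⟨_, rfl⟩
  obtain ⟨N₀, hN₀⟩ : ∃ N₀ : ℕ, N₀ = (Zm + 1) ^ K := ⟨_, rfl⟩
  have hN₀r : (0 : ℝ) ≤ (N₀ : ℝ) := Nat.cast_nonneg _
  refine ⟨5 * CA + (N₀ : ℝ) + 1, by positivity, ?_⟩
  intro N q a t ξ hq hqN haq haq'
  have hN1 : 1 ≤ N := hq.trans hqN
  have hNr : (1 : ℝ) ≤ (N : ℝ) := by exact_mod_cast hN1
  have hN0 : (0 : ℝ) < (N : ℝ) := by linarith
  have hq0 : (0 : ℝ) < (q : ℝ) := by exact_mod_cast hq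
  have hNN : (N : ℝ) * (1 / (N : ℝ)) ^ ((1 / 8 + 1 / 4000) : ℝ)
      = (N : ℝ) ^ ((7 / 8 - 1 / 4000) : ℝ) := by
    rw [one_div, Real.inv_rpow hN0.le, ← Real.rpow_neg hN0.le]
    nth_rewrite 1 [← Real.rpow_one (N : ℝ)]
    rw [← Real.rpow_add hN0]
    norm_num
  have hNe : (N : ℝ) ^ (1 + ε) = (N : ℝ) * (N : ℝ) ^ ε := by
    rw [Real.rpow_add hN0, Real.rpow_one]
  have hNe1 : (1 : ℝ) ≤ (N : ℝ) ^ ε := Real.one_le_rpow hNr hε.le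
  have hR1 : (0 : ℝ) ≤ (1 / (q : ℝ)) ^ ((1 / 4) : ℝ) := by positivity
  have hR2 : (0 : ℝ) ≤ (1 / (N : ℝ)) ^ ((1 / 8 + 1 / 4000) : ℝ) := by positivity
  by_cases hbig : N < N₀
  · -- small N
    have h1 : ‖W 4 N t ξ‖ ≤ (N : ℝ) := Pool.Agent.Helper69_Weyl.norm_W_le 4 N t ξ
    have h2 : (1 / (N : ℝ)) ≤ (1 / (N : ℝ)) ^ ((1 / 8 + 1 / 4000) : ℝ) := by
      have h3 : (1 / (N : ℝ)) ^ (1 : ℝ) ≤ (1 / (N : ℝ)) ^ ((1 / 8 + 1 / 4000) : ℝ) :=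
        Real.rpow_le_rpow_of_exponent_ge (by positivity)
          (by rw [div_le_one hN0]; exact hNr) (by norm_num)
      rwa [Real.rpow_one] at h3
    have h4 : (N : ℝ) ≤ (N₀ : ℝ) := by exact_mod_cast hbig.le
    have h5 : (1 : ℝ) ≤ (5 * CA + (N₀ : ℝ) + 1) * (1 / (N : ℝ)) := by
      rw [mul_one_div, le_div_iff₀ hN0]
      have : 0 < 5 * CA := by positivity
      linarith
    calc ‖W 4 N t ξ‖ ≤ (N : ℝ) := h1
      _ = (N : ℝ) * 1 := (mul_one _).symm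
      _ ≤ ((N : ℝ) * (N : ℝ) ^ ε) * ((5 * CA + (N₀ : ℝ) + 1) * (1 / (N : ℝ))) := by
          refine mul_le_mul ?_ h5 zero_le_one (by positivity)
          nlinarith only [hNe1, hN0]
      _ ≤ ((N : ℝ) * (N : ℝ) ^ ε) * ((5 * CA + (N₀ : ℝ) + 1) *
            ((1 / (q : ℝ)) ^ ((1 / 4) : ℝ) + (1 / (N : ℝ)) ^ ((1 / 8 + 1 / 4000) : ℝ))) := by
          refine mul_le_mul_of_nonneg_left ?_ (by positivity)
          refine mul_le_mul_of_nonneg_left ?_ (by positivity)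
          linarith only [h2, hR1]
      _ = (5 * CA + (N₀ : ℝ) + 1) * (N : ℝ) ^ (1 + ε) *
            ((1 / (q : ℝ)) ^ ((1 / 4) : ℝ) + (1 / (N : ℝ)) ^ ((1 / 8 + 1 / 4000) : ℝ)) := by
          rw [hNe]
          ring
  · push Not at hbig
    obtain ⟨Z, hZ1, hZN, hNZ⟩ := root_ex K N hK hN1
    have hZl : Zm < Z := root_large K Zm Z N (by rw [← hN₀]; exact hbig) hNZ
    have hZZ₀ : Z₀ ≤ Z := by omega
    have hZK : 2 * K ≤ Z := by omega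
    have hZr : (1 : ℝ) ≤ (Z : ℝ) := by exact_mod_cast hZ1
    have hZ0 : (0 : ℝ) < (Z : ℝ) := by linarith
    have hZN' : (Z : ℝ) ^ K ≤ (N : ℝ) := by exact_mod_cast hZN
    have hNZ' : (N : ℝ) ≤ 2 * (Z : ℝ) ^ K := by
      have h1 : (N : ℝ) < ((Z : ℝ) + 1) ^ K := by exact_mod_cast hNZ
      exact h1.le.trans (bern K Z hZK)
    have hNZ'' : N ≤ 2 * Z ^ K := by exact_mod_cast hNZ'
    have hmain : (Z : ℝ) ^ M ≤ (N : ℝ) ^ ((7 / 8 - 1 / 4000) : ℝ) := by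
      rw [← zpw (Z : ℝ) hZ0.le K M (7 / 8 - 1 / 4000) hM]
      exact Real.rpow_le_rpow (by positivity) hZN' (by norm_num)
    -- Dirichlet
    have hPpos : 0 < Z ^ P0 := pow_pos (by omega) _
    obtain ⟨r, hr1, hr2⟩ := Real.exists_rat_abs_sub_le_and_den_le t hPpos
    have hu1 : 1 ≤ r.den := r.den_pos
    have hu0 : (0 : ℝ) < (r.den : ℝ) := by exact_mod_cast hu1
    have hrc : ((r : ℚ) : ℝ) = (r.num : ℝ) / (r.den : ℝ) := by
      exact_mod_cast (Rat.num_div_den r).symm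
    have hgcd : Int.gcd r.num (r.den : ℤ) = 1 := by
      exact r.reduced
    obtain ⟨P, hPd⟩ : ∃ P : ℝ, P = (Z : ℝ) ^ P0 := ⟨_, rfl⟩
    have hPP : ((Z ^ P0 : ℕ) : ℝ) = P := by
      rw [hPd]
      push_cast
      rfl
    have hP1 : (0 : ℝ) < P := by
      rw [hPd]
      exact pow_pos hZ0 _
    have hur : (r.den : ℝ) ≤ P := by
      rw [← hPP]
      exact_mod_cast hr2
    have hru : |t - (r.num : ℝ) / (r.den : ℝ)| ≤ 1 / ((r.den : ℝ) * P) := by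
      rw [← hrc]
      refine hr1.trans ?_
      rw [hPP]
      refine one_div_le_one_div_of_le (by positivity) ?_
      nlinarith only [hu0, hP1]
    by_cases hcase : Z ^ a1 ≤ r.den
    · -- part B
      have h1 : r.den ≤ Z ^ a2 :=
        hr2.trans (Nat.pow_le_pow_right hZ1 hPa)
      have h2 : |t - (r.num : ℝ) / (r.den : ℝ)| ≤ 1 / (r.den : ℝ) ^ 2 := by
        refine hru.trans (one_div_le_one_div_of_le (by positivity) ?_)
        rw [sq]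
        exact mul_le_mul_of_nonneg_left hur hu0.le
      have h3 := hB Z hZZ₀ N r.den r.num t ξ hZN hNZ'' hcase h1 hgcd h2
      have h4 : ‖W 4 N t ξ‖ ≤ (Z : ℝ) ^ M := by
        refine le_of_pow_le_pow_left₀ (n := 4) (by norm_num) (by positivity) ?_
        have h5 : (Z : ℝ) ^ b1 ≤ (Z : ℝ) ^ (M * 4) * (Z : ℝ) ^ b2 := by
          rw [← pow_add]
          exact pow_le_pow_right₀ hZr hb
        have h6 : ‖W 4 N t ξ‖ ^ 4 ≤ (Z : ℝ) ^ (M * 4) :=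
          le_of_mul_le_mul_right (h3.trans h5) (pow_pos hZ0 _)
        rw [← pow_mul]
        exact h6
      have h5 := h4.trans hmain
      rw [← hNN] at h5
      refine h5.trans ?_
      rw [hNe]
      have h6 : (N : ℝ) * (1 / (N : ℝ)) ^ ((1 / 8 + 1 / 4000) : ℝ) ≤
          (N : ℝ) * ((1 / (q : ℝ)) ^ ((1 / 4) : ℝ) +
            (1 / (N : ℝ)) ^ ((1 / 8 + 1 / 4000) : ℝ)) :=
        mul_le_mul_of_nonneg_left (by linarith only [hR1]) hN0.le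
      refine h6.trans ?_
      have h7 : (1 : ℝ) ≤ 5 * CA + (N₀ : ℝ) + 1 := by
        have h8 : (0 : ℝ) ≤ (N₀ : ℝ) := Nat.cast_nonneg _
        linarith
      have h9 : (N : ℝ) ≤ (5 * CA + (N₀ : ℝ) + 1) * ((N : ℝ) * (N : ℝ) ^ ε) := by
        have h10 : (N : ℝ) * 1 ≤ (N : ℝ) * (N : ℝ) ^ ε :=
          mul_le_mul_of_nonneg_left hNe1 hN0.le
        have h11 : (0 : ℝ) ≤ (N : ℝ) * (N : ℝ) ^ ε := by positivity
        nlinarith only [h7, h10, h11]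
      exact mul_le_mul_of_nonneg_right h9 (add_nonneg hR1 hR2)
    · -- part A
      push Not at hcase
      have hcase' : (r.den : ℝ) ≤ (Z : ℝ) ^ a1 := by exact_mod_cast hcase.le
      have h1 := hA N r.den r.num t ξ P hN1 hu1 hP1 hgcd hru
      have hN2P : 2 * (N : ℝ) ≤ P := by
        have h2 : 2 * (N : ℝ) ≤ 4 * (Z : ℝ) ^ K := by linarith only [hNZ']
        have h3 : (4 : ℝ) ≤ (Z : ℝ) := by
          have : (4 : ℕ) ≤ Z := by omega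
          exact_mod_cast this
        have h4 : 4 * (Z : ℝ) ^ K ≤ (Z : ℝ) ^ (K + 1) := by
          rw [pow_succ' (Z : ℝ) K]
          exact mul_le_mul_of_nonneg_right h3 (by positivity)
        rw [hPd]
        exact h2.trans (h4.trans (pow_le_pow_right₀ hZr hKP))
      have hq2u := q_le N q r.den a r.num t P hq hu1 hqN hN2P haq haq' hru
      have hqu := quarter q r.den hq hu1 hq2u
      -- the factor
      have hf : ((N : ℝ) * (r.den : ℝ)) ^ (ε / 3) ≤ (N : ℝ) ^ ε := by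
        have h2 : (r.den : ℝ) ≤ (N : ℝ) ^ 2 := by
          have h3 : ((Z : ℝ) ^ K) ^ 2 ≤ (N : ℝ) ^ 2 :=
            pow_le_pow_left₀ (by positivity) hZN' 2
          refine hcase'.trans (le_trans ?_ h3)
          rw [← pow_mul]
          exact pow_le_pow_right₀ hZr haK
        have h3 : (N : ℝ) * (r.den : ℝ) ≤ (N : ℝ) ^ 3 := by
          calc (N : ℝ) * (r.den : ℝ) ≤ (N : ℝ) * (N : ℝ) ^ 2 :=
                mul_le_mul_of_nonneg_left h2 hN0.le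
            _ = (N : ℝ) ^ 3 := by ring
        refine (Real.rpow_le_rpow (by positivity) h3 (by positivity)).trans ?_
        rw [← Real.rpow_natCast (N : ℝ) 3, ← Real.rpow_mul hN0.le]
        refine Real.rpow_le_rpow_of_exponent_le hNr ?_
        push_cast
        linarith
      -- the three terms
      have hM0 : (0 : ℝ) ≤ (N : ℝ) ^ ((7 / 8 - 1 / 4000) : ℝ) := by positivity
      have ht2 : (r.den : ℝ) ^ ((1 / 2) : ℝ) ≤ (N : ℝ) ^ ((7 / 8 - 1 / 4000) : ℝ) := by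
        refine (Real.rpow_le_rpow hu0.le hcase' (by norm_num)).trans ?_
        rw [zpw (Z : ℝ) hZ0.le a1 c1 (1 / 2) ha1]
        exact (pow_le_pow_right₀ hZr hc1).trans hmain
      have ht3 : (N : ℝ) ^ 2 * P ^ (-(1 / 2) : ℝ) ≤ 4 * (N : ℝ) ^ ((7 / 8 - 1 / 4000) : ℝ) := by
        have h2 : P ^ (-(1 / 2) : ℝ) = ((Z : ℝ) ^ hP)⁻¹ := by
          rw [Real.rpow_neg hP1.le, hPd,
            zpw (Z : ℝ) hZ0.le P0 hP (1 / 2) hP0]
        have h3 : (N : ℝ) ^ 2 ≤ 4 * (Z : ℝ) ^ (K * 2) := by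
          calc (N : ℝ) ^ 2 ≤ (2 * (Z : ℝ) ^ K) ^ 2 := pow_le_pow_left₀ hN0.le hNZ' 2
            _ = 4 * (Z : ℝ) ^ (K * 2) := by
                rw [mul_pow, ← pow_mul]
                norm_num
        have h4 : (Z : ℝ) ^ (K * 2) = (Z : ℝ) ^ c1 * (Z : ℝ) ^ hP := by
          rw [← pow_add, hcP]
        have h5 : (0 : ℝ) < (Z : ℝ) ^ hP := by positivity
        rw [h2]
        calc (N : ℝ) ^ 2 * ((Z : ℝ) ^ hP)⁻¹
            ≤ (4 * (Z : ℝ) ^ (K * 2)) * ((Z : ℝ) ^ hP)⁻¹ :=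
              mul_le_mul_of_nonneg_right h3 (by positivity)
          _ = 4 * (Z : ℝ) ^ c1 := by
              rw [h4]
              field_simp
          _ ≤ 4 * (N : ℝ) ^ ((7 / 8 - 1 / 4000) : ℝ) := by
              refine mul_le_mul_of_nonneg_left ?_ (by norm_num)
              exact (pow_le_pow_right₀ hZr hc1).trans hmain
      have ht1 : (N : ℝ) * (r.den : ℝ) ^ (-(1 / 4) : ℝ) ≤
          2 * ((N : ℝ) * (1 / (q : ℝ)) ^ ((1 / 4) : ℝ)) := by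
        calc (N : ℝ) * (r.den : ℝ) ^ (-(1 / 4) : ℝ)
            ≤ (N : ℝ) * (2 * (1 / (q : ℝ)) ^ ((1 / 4) : ℝ)) :=
              mul_le_mul_of_nonneg_left hqu hN0.le
          _ = 2 * ((N : ℝ) * (1 / (q : ℝ)) ^ ((1 / 4) : ℝ)) := by ring
      have hsum : (N : ℝ) * (r.den : ℝ) ^ (-(1 / 4) : ℝ) + (r.den : ℝ) ^ ((1 / 2) : ℝ) +
          (N : ℝ) ^ 2 * P ^ (-(1 / 2) : ℝ) ≤ 5 * ((N : ℝ) *
            ((1 / (q : ℝ)) ^ ((1 / 4) : ℝ) + (1 / (N : ℝ)) ^ ((1 / 8 + 1 / 4000) : ℝ))) := by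
        rw [mul_add (N : ℝ), hNN]
        have h2 : (0 : ℝ) ≤ (N : ℝ) * (1 / (q : ℝ)) ^ ((1 / 4) : ℝ) := mul_nonneg hN0.le hR1
        linarith only [ht1, ht2, ht3, h2]
      have hS0 : (0 : ℝ) ≤ (1 / (q : ℝ)) ^ ((1 / 4) : ℝ) +
          (1 / (N : ℝ)) ^ ((1 / 8 + 1 / 4000) : ℝ) := add_nonneg hR1 hR2
      calc ‖W 4 N t ξ‖ ≤ CA * ((N : ℝ) * (r.den : ℝ)) ^ (ε / 3) *
            ((N : ℝ) * (r.den : ℝ) ^ (-(1 / 4) : ℝ) + (r.den : ℝ) ^ ((1 / 2) : ℝ) +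
              (N : ℝ) ^ 2 * P ^ (-(1 / 2) : ℝ)) := h1
        _ ≤ CA * (N : ℝ) ^ ε * (5 * ((N : ℝ) *
            ((1 / (q : ℝ)) ^ ((1 / 4) : ℝ) + (1 / (N : ℝ)) ^ ((1 / 8 + 1 / 4000) : ℝ)))) := by
            refine mul_le_mul (mul_le_mul_of_nonneg_left hf hCA.le) hsum (by positivity)
              (by positivity)
        _ = 5 * CA * (((N : ℝ) * (N : ℝ) ^ ε) *
            ((1 / (q : ℝ)) ^ ((1 / 4) : ℝ) + (1 / (N : ℝ)) ^ ((1 / 8 + 1 / 4000) : ℝ))) := by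
            ring
        _ ≤ (5 * CA + (N₀ : ℝ) + 1) * (((N : ℝ) * (N : ℝ) ^ ε) *
            ((1 / (q : ℝ)) ^ ((1 / 4) : ℝ) + (1 / (N : ℝ)) ^ ((1 / 8 + 1 / 4000) : ℝ))) := by
            refine mul_le_mul_of_nonneg_right ?_ (mul_nonneg (by positivity) hS0)
            have h8 : (0 : ℝ) ≤ (N₀ : ℝ) := Nat.cast_nonneg _
            linarith only [h8]
        _ = (5 * CA + (N₀ : ℝ) + 1) * (N : ℝ) ^ (1 + ε) *
            ((1 / (q : ℝ)) ^ ((1 / 4) : ℝ) + (1 / (N : ℝ)) ^ ((1 / 8 + 1 / 4000) : ℝ)) := by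
            rw [hNe]
            ring

theorem final : FinalStmt := fun hA hB =>
  core 64000 111900 144100 144200 55984 55950 72050 224000 66 (by norm_num) (by norm_num)
    (by norm_num) (by norm_num) (by norm_num) (by norm_num) (by norm_num) (by norm_num)
    (by norm_num) (by norm_num) hA hB

end Pool.Agent.K4W.H34
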