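import Pool.Agent.K4W.StmtsW

/-! K4W, row WRL: the relation between `a_n` and `S_r`. -/

set_option autoImplicit false

namespace Pool.Agent.K4W.H34

open Polynomial

open Classical in
theorem wrl (wdg : WdgStmt) (wml : WmlStmt) : WrlStmt := by
  intro p _ A B n hn
  have h1 : (n : ℂ) * an p A B n = ∑ e ∈ Finset.Icc 1 n, ∑ P ∈ irr p e, ∑ k ∈ Finset.Icc 1 n,
      (e : ℂ) * (if e * k ≤ n then chi p A B P ^ k * an p A B (n - e * k) else 0) := by
    have h2 : ∀ g ∈ Mon p n, (n : ℂ) * chi p A B g =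
        ∑ e ∈ Finset.Icc 1 n, ∑ P ∈ irr p e, ∑ k ∈ Finset.Icc 1 n,
          if P ^ k ∣ g then (e : ℂ) * chi p A B g else 0 := by
      intro g hg
      have h3 := congrArg (Nat.cast : ℕ → ℂ) (wdg p n g hg)
      rw [h3, Nat.cast_sum, Finset.sum_mul]
      refine Finset.sum_congr rfl fun e _ => ?_
      rw [Nat.cast_sum, Finset.sum_mul]
      refine Finset.sum_congr rfl fun P _ => ?_
      rw [Nat.cast_sum, Finset.sum_mul]
      refine Finset.sum_congr rfl fun k _ => ?_
      split_ifs with h4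
      · rfl
      · rw [Nat.cast_zero, zero_mul]
    have h3 : (n : ℂ) * an p A B n = ∑ g ∈ Mon p n, (n : ℂ) * chi p A B g := by
      rw [an, Finset.mul_sum]
    rw [h3, Finset.sum_congr rfl h2, Finset.sum_comm]
    refine Finset.sum_congr rfl fun e _ => ?_
    rw [Finset.sum_comm]
    refine Finset.sum_congr rfl fun P hP => ?_
    rw [Finset.sum_comm]
    refine Finset.sum_congr rfl fun k _ => ?_
    rw [← wml p A B n e k P hP, Finset.mul_sum, Finset.sum_filter]
  have h2 : ∑ r ∈ Finset.Icc 1 n, Sr p A B r * an p A B (n - r) =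
      ∑ r ∈ Finset.Icc 1 n, ∑ e ∈ Finset.Icc 1 n, if e ∣ r then
        (∑ P ∈ irr p e, (e : ℂ) * chi p A B P ^ (r / e)) * an p A B (n - r) else 0 := by
    refine Finset.sum_congr rfl fun r hr => ?_
    rw [Finset.mem_Icc] at hr
    rw [Sr, Finset.sum_mul, ← Finset.sum_filter]
    refine Finset.sum_congr ?_ fun e _ => rfl
    ext e
    rw [Nat.mem_divisors, Finset.mem_filter, Finset.mem_Icc]
    constructor
    · rintro ⟨h3, _⟩
      have h4 := Nat.le_of_dvd (by omega) h3
      have h5 := Nat.pos_of_dvd_of_pos h3 (by omega)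
      exact ⟨⟨h5, by omega⟩, h3⟩
    · rintro ⟨_, h3⟩
      exact ⟨h3, by omega⟩
  rw [h1, h2, Finset.sum_comm (s := Finset.Icc 1 n) (t := Finset.Icc 1 n)]
  refine Finset.sum_congr rfl fun e he => ?_
  rw [Finset.mem_Icc] at he
  rw [Finset.sum_comm]
  have h3 : ∀ k ∈ Finset.Icc 1 n, ∑ P ∈ irr p e,
      (e : ℂ) * (if e * k ≤ n then chi p A B P ^ k * an p A B (n - e * k) else 0) =
      if e * k ≤ n then (∑ P ∈ irr p e, (e : ℂ) * chi p A B P ^ k) * an p A B (n - e * k)
        else 0 := by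
    intro k _
    split_ifs with h4
    · rw [Finset.sum_mul]
      exact Finset.sum_congr rfl fun P _ => (mul_assoc _ _ _).symm
    · rw [mul_zero, Finset.sum_const_zero]
  rw [Finset.sum_congr rfl h3, ← Finset.sum_filter, ← Finset.sum_filter]
  refine Finset.sum_nbij' (fun k => e * k) (fun r => r / e) ?_ ?_ ?_ ?_ ?_
  · intro k hk
    rw [Finset.mem_filter, Finset.mem_Icc] at hk
    show e * k ∈ Finset.filter (fun r => e ∣ r) (Finset.Icc 1 n)
    rw [Finset.mem_filter, Finset.mem_Icc]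
    have h5 : 0 < e * k := Nat.mul_pos (by omega) (by omega)
    exact ⟨⟨h5, hk.2⟩, Dvd.intro k rfl⟩
  · intro r hr
    rw [Finset.mem_filter, Finset.mem_Icc] at hr
    show r / e ∈ Finset.filter (fun k => e * k ≤ n) (Finset.Icc 1 n)
    rw [Finset.mem_filter, Finset.mem_Icc]
    have h5 := Nat.div_mul_cancel hr.2
    have h6 : r / e ≤ r := Nat.div_le_self r e
    have h7 : 0 < r / e := Nat.div_pos (Nat.le_of_dvd (by omega) hr.2) (by omega)
    refine ⟨⟨h7, by omega⟩, ?_⟩
    rw [mul_comm, h5]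
    exact hr.1.2
  · intro k _
    show e * k / e = k
    exact Nat.mul_div_cancel_left k (by omega)
  · intro r hr
    rw [Finset.mem_filter] at hr
    show e * (r / e) = r
    exact Nat.mul_div_cancel' hr.2
  · intro k _
    show (∑ P ∈ irr p e, (e : ℂ) * chi p A B P ^ k) * an p A B (n - e * k) =
      (∑ P ∈ irr p e, (e : ℂ) * chi p A B P ^ (e * k / e)) * an p A B (n - e * k)
    rw [Nat.mul_div_cancel_left k (by omega)]

end Pool.Agent.K4W.H34
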